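import Mathlib

set_option autoImplicit false

namespace Pool.Agent.H.MP_959e05_ag
open Finset

lemma vand {n : ℕ} [NeZero n] (l : ℕ) (w : ZMod n → ℂ) (hw : ∀ s, l ≤ s.val → w s = 0)
    (T : Finset (ZMod n)) (hT : l ≤ T.card)
    (h : ∀ b ∈ T, ∑ s, w s * ZMod.stdAddChar (b * s) = 0) : ∀ s, w s = 0 := by
  classical
  rcases Nat.eq_zero_or_pos l with rfl | hl
  · exact fun s => hw s (Nat.zero_le _)
  let p : Polynomial ℂ := ∑ s : ZMod n, Polynomial.monomial s.val (w s)
  have hc : ∀ s : ZMod n, p.coeff s.val = w s := by
    intro s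
    simp only [p, Polynomial.finset_sum_coeff, Polynomial.coeff_monomial]
    rw [sum_eq_single s]
    · simp
    · intro t _ ht; rw [if_neg (fun h => ht (ZMod.val_injective n h))]
    · simp
  have hd : p.natDegree < l := by
    have : p.natDegree ≤ l - 1 := by
      refine Polynomial.natDegree_sum_le_of_forall_le _ _ fun s _ => ?_
      by_cases hs : l ≤ s.val
      · rw [hw s hs]; simp
      · exact (Polynomial.natDegree_monomial_le _).trans (by omega)
    omega
  have hp : p = 0 := by
    refine Polynomial.eq_zero_of_natDegree_lt_card_of_eval_eq_zero' p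
      (T.image (fun b => ZMod.stdAddChar b)) ?_ ?_
    · intro z hz
      obtain ⟨b, hb, rfl⟩ := mem_image.1 hz
      rw [← h b hb]
      simp only [p, Polynomial.eval_finset_sum, Polynomial.eval_monomial]
      refine sum_congr rfl fun s _ => ?_
      congr 1
      rw [← AddChar.map_nsmul_eq_pow, nsmul_eq_mul, ZMod.natCast_zmod_val, mul_comm]
    · rw [card_image_of_injective _ ZMod.injective_stdAddChar]; omega
  intro s
  rw [← hc, hp, Polynomial.coeff_zero]

lemma card_le_of_diam (S : Finset ℕ) (u : ℕ) (h : ∀ a ∈ S, ∀ b ∈ S, a ≤ b → b < a + u) :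
    S.card ≤ u := by
  rcases S.eq_empty_or_nonempty with rfl | hS
  · simp
  · have : S ⊆ Ico (S.min' hS) (S.min' hS + u) := fun b hb =>
      mem_Ico.2 ⟨min'_le _ _ hb, h _ (min'_mem _ _) b hb (min'_le _ _ hb)⟩
    simpa using card_le_card this

lemma design (n k u : ℕ) [NeZero n] (hk : k ≤ n) (hu : k * k ≤ n * u) :
    ∃ A B : Finset (ZMod n), A.card = k ∧ B.card = k ∧
      ∀ c, (B.filter (fun b => c - b ∈ A)).card ≤ u := by
  classical
  have hn : 0 < n := Nat.pos_of_ne_zero (NeZero.ne n)
  have hlt : ∀ j, j < k → j * n / k < n := fun j hj => by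
    rw [Nat.div_lt_iff_lt_mul (by omega)]; nlinarith
  refine ⟨(range k).image (fun j : ℕ => (j : ZMod n)),
    (range k).image (fun j : ℕ => ((j * n / k : ℕ) : ZMod n)), ?_, ?_, ?_⟩
  · rw [card_image_of_injOn, card_range]
    intro a ha b hb h
    have := congrArg ZMod.val h
    simp only [coe_range, Set.mem_Iio] at ha hb
    rwa [ZMod.val_natCast_of_lt (by omega), ZMod.val_natCast_of_lt (by omega)] at this
  · rw [card_image_of_injOn, card_range]
    intro a ha b hb h
    have := congrArg ZMod.val h
    simp only [coe_range, Set.mem_Iio] at ha hb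
    rw [ZMod.val_natCast_of_lt (hlt a ha), ZMod.val_natCast_of_lt (hlt b hb)] at this
    have key : ∀ a b : ℕ, a < b → b < k → a * n / k < b * n / k := fun a b hab hb => by
      have h1 : a * n / k + 1 ≤ b * n / k := by
        rw [← Nat.add_div_right _ (by omega : 0 < k)]
        exact Nat.div_le_div_right (by nlinarith)
      omega
    rcases lt_trichotomy a b with h1 | h1 | h1
    · exact absurd this (key a b h1 hb).ne
    · exact h1
    · exact absurd this (key b a h1 ha).ne'
  · intro c
    rw [filter_image]
    refine card_image_le.trans ?_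
    let f : ℕ → ℕ := fun j => if j * n / k ≤ c.val then j + k else j
    have hf : ∀ j ∈ (range k).filter (fun j : ℕ => c - ((j * n / k : ℕ) : ZMod n) ∈
        (range k).image (fun j : ℕ => (j : ZMod n))),
        (c.val + n + 1) * k ≤ f j * n + k * k ∧ f j * n < (c.val + n + 1) * k := by
      intro j hj
      simp only [mem_filter, mem_range, mem_image] at hj
      obtain ⟨hj, a, ha, hc⟩ := hj
      have h1 : c = ((a + j * n / k : ℕ) : ZMod n) := by push_cast; rw [hc]; ring
      have h2 : c.val = (a + j * n / k) % n := by rw [h1, ZMod.val_natCast]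
      have h3 := hlt j hj
      have h4 := Nat.div_add_mod (j * n) k
      have h5 := Nat.mod_lt (j * n) (by omega : 0 < k)
      simp only [f]
      generalize j * n / k = q at *
      generalize j * n % k = ρ at *
      by_cases h6 : a + q < n
      · rw [Nat.mod_eq_of_lt h6] at h2
        rw [if_pos (by omega), h2]
        constructor <;> nlinarith
      · have h7 : (a + q) % n = a + q - n := by
          rw [Nat.mod_eq_sub_mod (by omega), Nat.mod_eq_of_lt (by omega)]
        rw [if_neg (by omega)]
        have h8 : c.val + n = a + q := by omega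
        rw [h8]
        constructor <;> nlinarith
    rw [← card_image_of_injOn (f := f)]
    · refine card_le_of_diam _ u ?_
      intro a ha b hb hab
      obtain ⟨i, hi, rfl⟩ := mem_image.1 ha
      obtain ⟨j, hj, rfl⟩ := mem_image.1 hb
      have h1 := (hf i hi).1
      have h2 := (hf j hj).2
      by_contra h3
      have h4 : f i + u ≤ f j := by omega
      nlinarith
    · intro a ha b hb h
      simp only [coe_filter, mem_range, Set.mem_setOf_eq] at ha hb
      simp only [f] at h
      split_ifs at h <;> omega

lemma fourier_zero {n : ℕ} [NeZero n] (l : ℕ) (hl : l ≤ n) (A B : Finset (ZMod n))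
    (hAB : ∀ c, (B.filter (fun b => c - b ∈ A)).card ≤ n - l) (W : ZMod n → ZMod n → ℂ)
    (h0 : ∀ i j, l ≤ (j - i).val → W i j = 0)
    (hA : ∀ a, a ∉ A → ∀ j, ∑ i, ZMod.stdAddChar (a * i) * W i j = 0)
    (hB : ∀ b, b ∉ B → ∀ i, ∑ j, W i j * ZMod.stdAddChar (b * j) = 0) : ∀ i j, W i j = 0 := by
  classical
  have h1 : ∀ c s : ZMod n, ∑ i, W i (i + s) * ZMod.stdAddChar (c * i) = 0 := by
    intro c
    refine vand l _ (fun s hs => sum_eq_zero fun i _ => by
      rw [h0 i (i + s) (by simpa using hs), zero_mul])
      (univ \ B.filter (fun b => c - b ∈ A)) ?_ ?_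
    · rw [card_univ_diff, ZMod.card]
      have := hAB c
      omega
    · intro b hb
      have e : ∑ s, (∑ i, W i (i + s) * ZMod.stdAddChar (c * i)) * ZMod.stdAddChar (b * s) =
          ∑ i, ∑ j, ZMod.stdAddChar ((c - b) * i) * W i j * ZMod.stdAddChar (b * j) := by
        simp only [sum_mul]
        rw [sum_comm]
        refine sum_congr rfl fun i _ => ?_
        refine Fintype.sum_equiv (Equiv.addLeft i) _ _ fun s => ?_
        have : ZMod.stdAddChar (c * i) * ZMod.stdAddChar (b * s) =
            ZMod.stdAddChar ((c - b) * i) * ZMod.stdAddChar (b * (i + s)) := by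
          rw [← AddChar.map_add_eq_mul, ← AddChar.map_add_eq_mul]; congr 1; ring
        simp only [Equiv.coe_addLeft]
        linear_combination (W i (i + s)) * this
      rw [e]
      simp only [mem_sdiff, mem_univ, mem_filter, true_and, not_and] at hb
      by_cases hbB : b ∈ B
      · rw [sum_comm]
        refine sum_eq_zero fun j _ => ?_
        rw [← sum_mul, hA _ (hb hbB), zero_mul]
      · refine sum_eq_zero fun i _ => ?_
        simp only [mul_assoc]
        rw [← mul_sum, hB b hbB, mul_zero]
  intro i j
  have h2 := vand n (fun x => W x (x + (j - i))) (fun s hs => absurd (ZMod.val_lt s) (by omega))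
    univ (by simp) (fun c _ => h1 c (j - i)) i
  simpa using h2

end Pool.Agent.H.MP_959e05_ag
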