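import Pool.Agent.H.MP_959e05_ag.A

set_option autoImplicit false

namespace Pool.Agent.H.MP_959e05_ag
open Finset Topology Filter

lemma zero_of_nhds {E : Type} [Fintype E] (P : MvPolynomial E ℂ) (y : E → ℂ)
    (h : ∀ᶠ z in 𝓝 y, MvPolynomial.eval z P = 0) : P = 0 := by
  obtain ⟨ε, hε, hb⟩ := Metric.eventually_nhds_iff_ball.1 h
  refine MvPolynomial.funext_set (fun e => Metric.ball (y e) ε)
    (fun e => infinite_of_mem_nhds (y e) (Metric.ball_mem_nhds _ hε)) fun x hx => ?_
  rw [map_zero]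
  exact hb x (by rw [ball_pi _ hε]; exact hx)

lemma dense_of_dual {I R : Type} [Fintype I] [Fintype R] [DecidableEq I] (p : I × I → Prop)
    [DecidablePred p] (U : I → R → ℂ) (V : R → I → ℂ)
    (hd : ∀ W : I → I → ℂ, (∀ i j, ¬ p (i, j) → W i j = 0) →
      (∀ t j, ∑ i, U i t * W i j = 0) → (∀ t i, ∑ j, W i j * V t j = 0) → ∀ i j, W i j = 0)
    (P : MvPolynomial {e : I × I // p e} ℂ)
    (hP : ∀ M : Matrix I I ℂ, M.rank ≤ Fintype.card R →
      MvPolynomial.eval (fun e => M e.1.1 e.1.2) P = 0) : P = 0 := by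
  classical
  let X := (I → R → ℂ) × (R → I → ℂ)
  let pU : I → R → (X →L[ℂ] ℂ) := fun i t =>
    (ContinuousLinearMap.proj t).comp ((ContinuousLinearMap.proj i).comp
      (ContinuousLinearMap.fst ℂ (I → R → ℂ) (R → I → ℂ)))
  let pV : R → I → (X →L[ℂ] ℂ) := fun t j =>
    (ContinuousLinearMap.proj j).comp ((ContinuousLinearMap.proj t).comp
      (ContinuousLinearMap.snd ℂ (I → R → ℂ) (R → I → ℂ)))
  let f : X → ({e : I × I // p e} → ℂ) := fun x e => ∑ t, pU e.1.1 t x * pV t e.1.2 x
  let a : X := (U, V)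
  let L : X →L[ℂ] ({e : I × I // p e} → ℂ) := ContinuousLinearMap.pi fun e =>
    ∑ t, (pU e.1.1 t a • pV t e.1.2 + pV t e.1.2 a • pU e.1.1 t)
  have hf : HasStrictFDerivAt f L a :=
    hasStrictFDerivAt_pi.2 fun e => HasStrictFDerivAt.fun_sum fun t _ =>
      (pU e.1.1 t).hasStrictFDerivAt.mul (pV t e.1.2).hasStrictFDerivAt
  have hL : ∀ (v : X) e, L v e = ∑ t, (U e.1.1 t * v.2 t e.1.2 + V t e.1.2 * v.1 e.1.1 t) := by
    intro v e
    simp [L, pU, pV, a]
    rfl
  have htop : L.range = ⊤ := by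
    by_contra hne
    obtain ⟨φ, hφ, hle⟩ := Submodule.exists_le_ker_of_lt_top _ (lt_top_iff_ne_top.2 hne)
    let W : I → I → ℂ := fun i j =>
      if h : p (i, j) then φ (fun e => if (⟨(i, j), h⟩ : {e : I × I // p e}) = e then 1 else 0)
      else 0
    have hφ2 : ∀ g : I → I → ℂ, φ (fun e => g e.1.1 e.1.2) = ∑ i, ∑ j, g i j * W i j := by
      intro g
      rw [LinearMap.pi_apply_eq_sum_univ, ← Fintype.sum_prod_type',
        ← Finset.sum_filter_add_sum_filter_not univ p,
        Finset.sum_eq_zero (s := univ.filter fun x => ¬ p x), add_zero,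
        Finset.sum_subtype (univ.filter p) (p := p) (by simp)]
      · refine sum_congr rfl fun e _ => ?_
        simp only [W, smul_eq_mul]
        rw [dif_pos e.2]
      · intro x hx
        simp only [mem_filter, mem_univ, true_and] at hx
        simp only [W]
        rw [dif_neg hx, mul_zero]
    have hz : ∀ v : X, ∑ i, ∑ j, (∑ t, (U i t * v.2 t j + V t j * v.1 i t)) * W i j = 0 := by
      intro v
      rw [← hφ2 (fun i j => ∑ t, (U i t * v.2 t j + V t j * v.1 i t))]
      have := hle (LinearMap.mem_range_self L.toLinearMap v)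
      rw [LinearMap.mem_ker] at this
      rw [← this]
      congr 1
      funext e
      exact (hL v e).symm
    have hW := hd W (fun i j h => dif_neg h)
      (fun t j => by
        have := hz (0, fun t' j' => if t' = t then if j' = j then 1 else 0 else 0)
        simpa [ite_mul] using this)
      (fun t i => by
        have := hz (fun i' t' => if t' = t then if i' = i then 1 else 0 else 0, 0)
        simpa [ite_mul, mul_comm] using this)
    apply hφ
    refine LinearMap.ext fun x => ?_
    have := hφ2 (fun i j => if h : p (i, j) then x ⟨(i, j), h⟩ else 0)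
    simp only [hW, mul_zero, sum_const_zero] at this
    rw [LinearMap.zero_apply, ← this]
    congr 1
    funext e
    rw [dif_pos e.2]
  have hm := hf.map_nhds_eq_of_surj htop
  refine zero_of_nhds P (f a) ?_
  rw [← hm, eventually_map]
  refine Eventually.of_forall fun x => ?_
  have := hP (Matrix.of x.1 * Matrix.of x.2)
    ((Matrix.rank_mul_le_left _ _).trans (Matrix.rank_le_card_width _))
  exact this

theorem main (m l r : ℕ) (hl : l ≤ m + 1) (hr : r ≤ m + 1)
    (h : (m + 1) * l ≤ r * (2 * (m + 1) - r))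
    (P : MvPolynomial {p : ZMod (m + 1) × ZMod (m + 1) // (p.2 - p.1).val < l} ℂ)
    (hP : ∀ M : Matrix (ZMod (m + 1)) (ZMod (m + 1)) ℂ, M.rank ≤ r →
      MvPolynomial.eval (fun e => M e.1.1 e.1.2) P = 0) : P = 0 := by
  classical
  obtain ⟨k, hk⟩ : ∃ k, m + 1 = r + k := ⟨m + 1 - r, by omega⟩
  obtain ⟨u, hu⟩ : ∃ u, m + 1 = l + u := ⟨m + 1 - l, by omega⟩
  have h1 : 2 * (m + 1) - r = r + 2 * k := by omega
  rw [h1] at h
  obtain ⟨A, B, hA, hB, hAB⟩ := design (m + 1) k u (by omega) (by nlinarith)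
  have cA : Aᶜ.card = r := by rw [card_compl, ZMod.card]; omega
  have cB : Bᶜ.card = r := by rw [card_compl, ZMod.card]; omega
  let α := (Aᶜ).equivFinOfCardEq cA
  let β := (Bᶜ).equivFinOfCardEq cB
  refine dense_of_dual (R := Fin r) _ (fun i t => ZMod.stdAddChar ((α.symm t).1 * i))
    (fun t j => ZMod.stdAddChar ((β.symm t).1 * j)) ?_ P (by simpa using hP)
  intro W h0 hU hV
  refine fourier_zero l hl A B (fun c => (hAB c).trans (by omega)) W
    (fun i j hij => h0 i j (by simpa using hij)) ?_ ?_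
  · intro a ha j
    simpa using hU (α ⟨a, mem_compl.2 ha⟩) j
  · intro b hb i
    simpa using hV (β ⟨b, mem_compl.2 hb⟩) i

end Pool.Agent.H.MP_959e05_ag
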